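import Pool.Agent.Helper25_CN2.Stmts
import Pool.Agent.Helper25_CON.PDLem

/-!
Squad CN2, K_3M: a class with bound 3 and a middle component
-/

noncomputable section

namespace Pool.Agent.CN2.H65

open Pool.Agent.H25Cong Pool.Agent.CON Pool.Agent.CN2

variable {M : Type} [AddCommGroup M] {b : M → M → ℤ}

lemma mid_rk {τ : Ty} (h : τ.mid) : 2 ≤ τ.rk := by
  rcases τ with k | k | k
  · rcases h with h | h <;> (change 2 ≤ k; omega)
  · have h' : k = 4 := h
    change 2 ≤ k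
    omega
  · exact h.elim

/-- the product with a root is a multiple of the scale -/
lemma dvd_root (hb : PD b) {C : Set M} {s : ℤ} (hC : Irr b C s) {α : M} (hα : α ∈ C) :
    ∀ y ∈ AddSubgroup.closure C, s ∣ b y α :=
  hb.closure_dvd fun x hx => hC.dvd x hx α hα

/-- the complement of one component -/
def Co {k : ℕ} (C : Fin k → Set M) (i : Fin k) : AddSubgroup M :=
  AddSubgroup.closure (⋃ j ∈ {j | j ≠ i}, C j)

lemma co_orth (hb : PD b) {k : ℕ} {C : Fin k → Set M} {s : Fin k → ℤ} {τ : Fin k → Ty}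
    (hC : CT b C s τ) (i : Fin k) :
    ∀ y ∈ AddSubgroup.closure (C i), ∀ z ∈ Co C i, b y z = 0 := by
  refine hb.closure_orth ?_
  intro x hx y hy
  obtain ⟨j, hj⟩ := Set.mem_iUnion.1 hy
  obtain ⟨hji, hyj⟩ := Set.mem_iUnion.1 hj
  exact hC.orth i j (Ne.symm hji) x hx y hyj

lemma co_le {k : ℕ} {C : Fin k → Set M} {i j : Fin k} (h : j ≠ i) :
    AddSubgroup.closure (C j) ≤ Co C i := by
  apply AddSubgroup.closure_mono
  intro x hx
  exact Set.mem_iUnion.2 ⟨j, Set.mem_iUnion.2 ⟨h, hx⟩⟩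

lemma co_sup {k : ℕ} {C : Fin k → Set M} {s : Fin k → ℤ} {τ : Fin k → Ty}
    (hC : CT b C s τ) (i : Fin k) : AddSubgroup.closure (C i) ⊔ Co C i = ⊤ := by
  rw [eq_top_iff]
  intro x _
  have hx := hC.gen x
  have : AddSubgroup.closure (⋃ j, C j) ≤ AddSubgroup.closure (C i) ⊔ Co C i := by
    rw [AddSubgroup.closure_le]
    intro y hy
    obtain ⟨j, hj⟩ := Set.mem_iUnion.1 hy
    by_cases hji : j = i
    · subst hji
      exact AddSubgroup.mem_sup_left (AddSubgroup.subset_closure hj)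
    · exact AddSubgroup.mem_sup_right (co_le hji (AddSubgroup.subset_closure hj))
  exact this hx

/-- the product of a sum of components with a vector of one component -/
lemma ct_sum (hb : PD b) {k : ℕ} {C : Fin k → Set M} {s : Fin k → ℤ} {τ : Fin k → Ty}
    (hC : CT b C s τ) {T : Fin k → M} (hT : ∀ i, T i ∈ AddSubgroup.closure (C i)) {i : Fin k}
    {y : M} (hy : y ∈ AddSubgroup.closure (C i)) : b (∑ l, T l) y = b (T i) y := by
  rw [hb.sum_left]
  refine Finset.sum_eq_single i (fun l _ hl => ?_) (fun h => absurd (Finset.mem_univ _) h)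
  exact hb.closure_orth (fun x hx z hz => hC.orth l i hl x hx z hz) _ (hT l) _ hy

/-- the standard application of X_PAR: the touched component i1 is given by a root α -/
lemma par_root (hX : X_PAR) (hE : E_NON) (hR : T_RK) (hb : PD b) {k : ℕ} {C : Fin k → Set M}
    {s : Fin k → ℤ} {τ : Fin k → Ty} (hC : CT b C s τ) (i1 : Fin k) (hs : ¬ (2 : ℤ) ∣ s i1)
    (hrk : 2 ≤ (τ i1).rk) : ∃ α ∈ C i1, ∀ (x2 : M) (e0 : ℤ), x2 ∈ Co C i1 →
    (∃ y ∈ Co C i1, ¬ (2 : ℤ) ∣ b x2 y) → (4 : ℤ) ∣ b x2 x2 - 2 → 2 * s i1 ∣ e0 →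
    (∀ t ρ, NewR b (α + x2) t ρ → 4 * s i1 ∣ b t α - e0) → Bad b := by
  have hirr := hC.irr i1
  obtain ⟨α, hα, β, hβ, hαβ⟩ := hE M b (C i1) (s i1) hb hirr
    ((hR M b (C i1) (s i1) (τ i1) hb hirr (hC.ty i1) 2).2 hrk)
  refine ⟨α, hα, ?_⟩
  intro x2 e0 hx2 hy2 h4 he hnew
  have hα' := AddSubgroup.subset_closure (k := C i1) hα
  have hβ' := AddSubgroup.subset_closure (k := C i1) hβ
  refine hX M b (AddSubgroup.closure (C i1)) (Co C i1) α x2 α (s i1) e0 hb
    (co_orth hb hC i1) (co_sup hC i1) hα' hx2 hα' hirr.pos.ne' ⟨β, hβ', ?_⟩ hy2 ?_ ?_ he ?_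
  · rw [hαβ]
    exact hs
  · rw [hb.add_left, hb.add_right, hb.add_right, hirr.norm α hα,
      co_orth hb hC i1 α hα' x2 hx2, hb.symm x2 α, co_orth hb hC i1 α hα' x2 hx2]
    omega
  · intro y hy
    obtain ⟨c, hc⟩ := dvd_root hb hirr hα y hy
    rw [hc]
    obtain ⟨d, hd⟩ : (2 : ℤ) ∣ 1 - s i1 := by omega
    refine ⟨c * d, ?_⟩
    linear_combination (s i1 * c) * hd
  · intro t ρ ht
    exact hnew t ρ ht

/-- **K_3M.** -/
theorem k_3m (hXC : X_CMP) (hXP : X_PAR) (hJ : J_ROOT) (hE : E_NON) (hR : T_RK) : K_3M := by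
  intro M _ b k C s τ hb hC hbad i0 i1 ⟨x, hx, hx4, ⟨y, hy, hxy⟩, hJR⟩ hne hs hmid
  obtain ⟨α, hα, key⟩ := par_root hXP hE hR hb hC i1 hs (mid_rk hmid)
  have hα' := AddSubgroup.subset_closure (k := C i1) hα
  have hpos := (hC.irr i1).pos
  apply hbad
  refine key x (if s i0 = s i1 then 2 * s i1 else 0) (co_le hne hx) ⟨y, co_le hne hy, hxy⟩ hx4
    ?_ ?_
  · split_ifs
    · exact dvd_refl _
    · exact dvd_zero _
  · intro t ρ ht
    have hnew : NewR b (([(i0, x, (3 : ℤ), fun ρ _ => ρ = 2 * s i0), (i1, α, (1 : ℤ), fun ρ t =>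
        (ρ = 2 * s i1 ∧ (t = α ∨ t = -α)) ∨
          (ρ = 6 * s i1 ∧ b t α = 0 ∧ Rk (C i1) 2 ∧ ¬ Rk (C i1) 3))] :
          List (Tch k M)).map fun a => a.2.1).sum t ρ := by
      have e : (([(i0, x, (3 : ℤ), fun ρ _ => ρ = 2 * s i0), (i1, α, (1 : ℤ), fun ρ t =>
        (ρ = 2 * s i1 ∧ (t = α ∨ t = -α)) ∨
          (ρ = 6 * s i1 ∧ b t α = 0 ∧ Rk (C i1) 2 ∧ ¬ Rk (C i1) 3))] :
          List (Tch k M)).map fun a => a.2.1).sum = α + x := by
        simp only [List.map_cons, List.map_nil, List.sum_cons, List.sum_nil, add_zero]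
        exact add_comm _ _
      rw [e]
      exact ht
    obtain ⟨-, T, htT, hT, -, hP⟩ := hXC M b k C s τ _ t ρ hb hC (by
      simp only [List.map_cons, List.map_nil, List.nodup_cons, List.mem_cons, List.not_mem_nil,
        or_false, not_false_eq_true, List.nodup_nil, and_true]
      exact hne) (by
      intro a ha
      simp only [List.mem_cons, List.not_mem_nil, or_false] at ha
      rcases ha with rfl | rfl
      · exact ⟨hx, hJR⟩
      · exact ⟨hα', hJ M b (C i1) (s i1) α hb (hC.irr i1) hs hα⟩) (by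
      simp) hnew
    have p0 : ρ = 2 * s i0 := (hP _ (List.mem_cons_self)).2.2
    have p1 : (ρ = 2 * s i1 ∧ (T i1 = α ∨ T i1 = -α)) ∨
        (ρ = 6 * s i1 ∧ b (T i1) α = 0 ∧ Rk (C i1) 2 ∧ ¬ Rk (C i1) 3) :=
      (hP _ (List.mem_cons_of_mem _ List.mem_cons_self)).2.2
    rw [htT, ct_sum hb hC hT hα']
    split_ifs with h
    · rcases p1 with ⟨-, h1 | h1⟩ | ⟨h1, -⟩
      · rw [h1, (hC.irr i1).norm α hα, sub_self]
        exact dvd_zero _
      · rw [h1, hb.neg_left, (hC.irr i1).norm α hα]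
        exact ⟨-1, by ring⟩
      · exfalso
        rw [p0, h] at h1
        omega
    · rcases p1 with ⟨h1, -⟩ | ⟨-, h1, -⟩
      · exfalso
        apply h
        omega
      · rw [h1, sub_zero]
        exact dvd_zero _

end Pool.Agent.CN2.H65

end
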